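import Pool.Agent.Y524L.St

/-!
The group of tree automorphisms acts faithfully on the levels (`S_LVL`); written by helper510 for
helper524.
-/

set_option autoImplicit false

namespace Pool.Agent.Y510.LA

open Pool.Agent.Y462.SS Pool.Agent.Y524L

/-- the action on the words of length at most `n` -/
def lvl (X : Type) (n : ℕ) : T X →* Equiv.Perm {v : List X // v.length ≤ n} where
  toFun g :=
    { toFun := fun v => ⟨g.1 v.1, by rw [g.2.1]; exact v.2⟩
      invFun := fun v => ⟨g.1⁻¹ v.1, by rw [(isTree_inv g.2).1]; exact v.2⟩
      left_inv := fun v => Subtype.ext (g.1.symm_apply_apply v.1)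
      right_inv := fun v => Subtype.ext (g.1.apply_symm_apply v.1) }
  map_one' := by
    apply Equiv.ext
    intro v
    rfl
  map_mul' g h := by
    apply Equiv.ext
    intro v
    rfl

theorem t_lvl : S_LVL := by
  intro X _ s
  classical
  have h0 : ∀ g : T X, ∃ v : List X, g ≠ 1 → g.1 v ≠ v := by
    intro g
    by_cases h : g = 1
    · exact ⟨[], fun h' => absurd h h'⟩
    · by_contra hcon
      push Not at hcon
      apply h
      apply Subtype.ext
      apply Equiv.ext
      intro v
      exact (hcon v).2
  choose f hf using h0
  refine ⟨{v : List X // v.length ≤ s.sup fun g => (f g).length},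
    (List.finite_length_le X (s.sup fun g => (f g).length)).to_subtype,
    lvl X (s.sup fun g => (f g).length), fun g hg h1 => ?_⟩
  by_contra hne
  have h2 : (f g).length ≤ s.sup fun g => (f g).length :=
    Finset.le_sup (f := fun g => (f g).length) hg
  have h3 := congrArg Subtype.val (Equiv.ext_iff.1 h1 ⟨f g, h2⟩)
  exact hf g hne h3

end Pool.Agent.Y510.LA
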